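import Pool.Agent.Q299.Dep.ConnProb

/-!
# MP_b3d828_pr, Q1: the negated form holds

There are `d(n)`-dependent random graphs with `d(n) = O(n / ln n)` and edge probability
`p(n) = (ln n)^{3/4} / n = o(ln n / n)` that are connected with probability tending to `1`.

The potential edges are divided into blocks, each block is present or absent as a whole, and
different blocks are independent. Take a prime `g` of order `n / ln n`, divide the vertices into
groups of `g` consecutive ones, and let the edges `v w` with `v` in the group `a`, `w` in the group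
`c` and `w - v = s` mod `g` form a block.
-/

namespace Pool.Agent.Results.MP_b3d828_pr.ConnectedBelowLog

open MeasureTheory ProbabilityTheory Filter Topology Asymptotics Q299.Dep

/-- the construction for a given `n` -/
theorem exists_law (n : ℕ) : ∃ (d : ℕ) (p : ℝ) (μ : Measure (SimpleGraph (Fin n))),
    0 ≤ p ∧ p ≤ 1 ∧ IsDDependent n d p μ ∧
    (24 ≤ Real.log n → (d : ℝ) ≤ 4 * ((n : ℝ) / Real.log n) ∧
      p = Real.log n ^ (3 / 4 : ℝ) / n ∧
      ENNReal.ofReal (1 - 2 * (Real.log n + 1) * Real.exp (-(Real.log n ^ (1 / 2 : ℝ) / 256))) ≤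
        μ {G | G.Connected}) := by
  classical
  by_cases hn : 24 ≤ Real.log n
  swap
  · refine ⟨0, 0, blockLaw (fun e : Pairs n => e) 0, le_rfl, zero_le_one, ?_, fun h => absurd h hn⟩
    apply isDDependent_blockLaw _ le_rfl zero_le_one
    intro b
    rw [zero_add, Finset.card_le_one]
    intro e he f hf
    simp only [Finset.mem_filter, Finset.mem_univ, true_and] at he hf
    rw [he, hf]
  set ℓ := Real.log n with hℓ
  have hℓ0 : 0 < ℓ := by linarith
  have hn0 : n ≠ 0 := by
    rintro rfl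
    rw [hℓ] at hn
    simp at hn
    norm_num at hn
  have hnpos : (0 : ℝ) < n := by exact_mod_cast Nat.pos_of_ne_zero hn0
  have hℓn : ℓ + 1 ≤ n := by
    have := Real.add_one_le_exp ℓ
    rwa [hℓ, Real.exp_log hnpos] at this
  set X := ⌈(n : ℝ) / ℓ⌉₊ with hX
  have hdiv1 : 1 ≤ (n : ℝ) / ℓ := by
    rw [le_div_iff₀ hℓ0]; linarith
  have hX1 : (n : ℝ) / ℓ ≤ X := Nat.le_ceil _
  have hX2 : (X : ℝ) < (n : ℝ) / ℓ + 1 := Nat.ceil_lt_add_one (by positivity)
  have hX0 : X ≠ 0 := by
    intro h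
    rw [h] at hX1
    push_cast at hX1
    linarith
  obtain ⟨g, hgp, hgX, hg2⟩ := Nat.exists_prime_lt_and_le_two_mul X hX0
  have : Fact g.Prime := ⟨hgp⟩
  have hgXr : (X : ℝ) + 1 ≤ g := by exact_mod_cast hgX
  have hg2r : (g : ℝ) ≤ 2 * X := by exact_mod_cast hg2
  have hgpos : (0 : ℝ) < g := by exact_mod_cast hgp.pos
  have hg4 : (g : ℝ) ≤ 4 * ((n : ℝ) / ℓ) := by linarith
  have hgn : g ≤ n := by
    have h1 : 4 * ((n : ℝ) / ℓ) ≤ n := by
      rw [← mul_div_assoc, div_le_iff₀ hℓ0]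
      nlinarith
    exact_mod_cast hg4.trans h1
  set t := ℓ ^ (1 / 4 : ℝ) with ht
  have ht0 : 0 < t := Real.rpow_pos_of_pos hℓ0 _
  have ht4 : t ^ 4 = ℓ := by
    rw [ht, ← Real.rpow_natCast, ← Real.rpow_mul hℓ0.le]
    norm_num
  have ht3 : ℓ ^ (3 / 4 : ℝ) = t ^ 3 := by
    rw [ht, ← Real.rpow_natCast, ← Real.rpow_mul hℓ0.le]
    norm_num
  have ht2 : ℓ ^ (1 / 2 : ℝ) = t ^ 2 := by
    rw [ht, ← Real.rpow_natCast, ← Real.rpow_mul hℓ0.le]
    norm_num
  have ht1 : 1 ≤ t := by
    rw [ht]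
    exact Real.one_le_rpow (by linarith) (by norm_num)
  set p := t ^ 3 / n with hp
  have hp0 : 0 ≤ p := by positivity
  have hp1 : p ≤ 1 := by
    rw [hp, div_le_one hnpos]
    have : t ^ 3 ≤ t ^ 4 := pow_le_pow_right₀ ht1 (by norm_num)
    linarith
  refine ⟨g - 1, p, blockLaw (blk g) p, hp0, hp1,
    isDDependent_blockLaw _ hp0 hp1 _ (blk_card hgp.one_le), fun _ => ⟨?_, ?_, ?_⟩⟩
  · have : ((g - 1 : ℕ) : ℝ) ≤ g := by exact_mod_cast Nat.sub_le _ _
    linarith
  · rw [ht3]
  · rw [blockLaw_eq_Pr _ hp0 hp1]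
    apply ENNReal.ofReal_le_ofReal
    refine le_trans ?_ (Pr_connected hp0 hp1 hgn)
    rw [ht2]
    -- lower bound for `q`
    set h := g / 2 with hh
    have hh1 : (n : ℝ) / (2 * ℓ) ≤ h := by
      have h1 : g ≤ 2 * h + 1 := by omega
      have h2 : (g : ℝ) ≤ 2 * h + 1 := by exact_mod_cast h1
      have h3 : (n : ℝ) / (2 * ℓ) = (n : ℝ) / ℓ / 2 := by field_simp
      rw [h3]
      linarith
    have hph : 1 / (2 * t) ≤ p * h := by
      calc 1 / (2 * t) = p * ((n : ℝ) / (2 * ℓ)) := by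
            rw [hp, ← ht4]
            field_simp
        _ ≤ p * h := mul_le_mul_of_nonneg_left hh1 hp0
    have hq1 : (1 - p) ^ h ≤ Real.exp (-(1 / (2 * t))) := by
      calc (1 - p) ^ h ≤ Real.exp (-p) ^ h := by
            apply pow_le_pow_left₀ (by linarith)
            have := Real.add_one_le_exp (-p)
            linarith
        _ = Real.exp (-(p * h)) := by
            rw [← Real.exp_nat_mul]
            congr 1
            ring
        _ ≤ _ := by
            apply Real.exp_le_exp.2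
            linarith
    have hx : 1 / (2 * t) ≤ 1 := by
      rw [div_le_one (by positivity)]
      linarith
    have hx0 : 0 < 1 / (2 * t) := by positivity
    have hq2 : Real.exp (-(1 / (2 * t))) ≤ 1 - 1 / (4 * t) := by
      have h2 : 1 / (4 * t) = (1 / (2 * t)) / 2 := by
        field_simp
        norm_num
      rw [h2]
      set x := 1 / (2 * t)
      have h3 := Real.add_one_le_exp x
      rw [Real.exp_neg]
      have h4 : (Real.exp x)⁻¹ ≤ (x + 1)⁻¹ := by
        apply inv_anti₀ (by linarith) h3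
      refine h4.trans ?_
      rw [inv_le_iff_one_le_mul₀ (by linarith)]
      nlinarith
    have hq : 1 / (4 * t) ≤ 1 - (1 - p) ^ h := by linarith
    have hq' : 1 / (16 * t ^ 2) ≤ (1 - (1 - p) ^ h) ^ 2 := by
      calc 1 / (16 * t ^ 2) = (1 / (4 * t)) ^ 2 := by
            rw [div_pow, mul_pow]
            norm_num
        _ ≤ _ := pow_le_pow_left₀ (by positivity) hq 2
    -- bounds for `n / g`
    have hM1 : ((n / g : ℕ) : ℝ) ≤ ℓ := by
      calc ((n / g : ℕ) : ℝ) ≤ (n : ℝ) / g := Nat.cast_div_le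
        _ ≤ ℓ := by
            rw [div_le_iff₀ hgpos]
            have : (n : ℝ) / ℓ ≤ g := by linarith
            rw [div_le_iff₀ hℓ0] at this
            linarith
    have hM2 : ℓ / 8 ≤ ((n / g - 2 : ℕ) : ℝ) := by
      have h1 : (n : ℝ) / g < ((n / g : ℕ) : ℝ) + 1 := by
        rw [div_lt_iff₀ hgpos]
        have h2 : n < (n / g + 1) * g := by
          have := Nat.lt_mul_div_succ n hgp.pos
          rwa [mul_comm] at this
        exact_mod_cast h2
      have h2 : ℓ / 4 ≤ (n : ℝ) / g := by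
        rw [le_div_iff₀ hgpos]
        have h3 : (g : ℝ) * ℓ ≤ 4 * n := by
          have := mul_le_mul_of_nonneg_right hg4 hℓ0.le
          rwa [mul_assoc, div_mul_cancel₀ _ hℓ0.ne'] at this
        linarith
      have h3 : ((n / g : ℕ) : ℝ) - 2 ≤ ((n / g - 2 : ℕ) : ℝ) := by
        have : n / g ≤ (n / g - 2) + 2 := by omega
        have h4 : ((n / g : ℕ) : ℝ) ≤ ((n / g - 2 : ℕ) : ℝ) + 2 := by exact_mod_cast this
        linarith
      linarith
    have hexp : Real.exp (-((1 - (1 - p) ^ h) ^ 2 * ((n / g - 2 : ℕ) : ℝ) / 2)) ≤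
        Real.exp (-(t ^ 2 / 256)) := by
      apply Real.exp_le_exp.2
      have h1 : 1 / (16 * t ^ 2) * (ℓ / 8) ≤ (1 - (1 - p) ^ h) ^ 2 * ((n / g - 2 : ℕ) : ℝ) :=
        mul_le_mul hq' hM2 (by positivity) (sq_nonneg _)
      have h2 : 1 / (16 * t ^ 2) * (ℓ / 8) = t ^ 2 / 128 := by
        rw [← ht4]
        field_simp
        norm_num
      rw [h2] at h1
      linarith
    have hM0 : (0 : ℝ) ≤ ((n / g : ℕ) : ℝ) := Nat.cast_nonneg _
    have hE := Real.exp_pos (-((1 - (1 - p) ^ h) ^ 2 * ((n / g - 2 : ℕ) : ℝ) / 2))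
    have : 2 * (((n / g : ℕ) : ℝ) + 1) *
        Real.exp (-((1 - (1 - p) ^ h) ^ 2 * ((n / g - 2 : ℕ) : ℝ) / 2)) ≤
        2 * (ℓ + 1) * Real.exp (-(t ^ 2 / 256)) :=
      mul_le_mul (by linarith) hexp hE.le (by linarith)
    linarith

theorem main : ∃ (d : ℕ → ℕ) (p : ℕ → ℝ) (μ : ∀ n : ℕ, Measure (SimpleGraph (Fin n))),
    (fun n => (d n : ℝ)) =O[atTop] (fun n : ℕ => (n : ℝ) / Real.log n) ∧
    p =o[atTop] (fun n : ℕ => Real.log n / (n : ℝ)) ∧
    (∀ n, 0 ≤ p n ∧ p n ≤ 1) ∧
    (∀ n, IsDDependent n (d n) (p n) (μ n)) ∧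
    Tendsto (fun n => μ n {G | G.Connected}) atTop (𝓝 1) := by
  choose d p μ h0 h1 hdep hgood using exists_law
  have hlog : Tendsto (fun n : ℕ => Real.log n) atTop atTop :=
    Real.tendsto_log_atTop.comp tendsto_natCast_atTop_atTop
  have hev : ∀ᶠ n : ℕ in atTop, 24 ≤ Real.log n := hlog.eventually_ge_atTop 24
  refine ⟨d, p, μ, ?_, ?_, fun n => ⟨h0 n, h1 n⟩, hdep, ?_⟩
  · apply IsBigO.of_bound 4
    filter_upwards [hev] with n hn
    have hpos : (0 : ℝ) ≤ (n : ℝ) / Real.log n := by positivity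
    rw [Real.norm_of_nonneg (Nat.cast_nonneg _), Real.norm_of_nonneg hpos]
    exact (hgood n hn).1
  · have h2 : p =ᶠ[atTop] (fun n : ℕ => Real.log n ^ (-(1 / 4) : ℝ) * (Real.log n / (n : ℝ))) := by
      filter_upwards [hev] with n hn
      have hl : 0 < Real.log n := by linarith
      rw [(hgood n hn).2.1]
      have : Real.log n ^ (3 / 4 : ℝ) = Real.log n ^ (-(1 / 4) : ℝ) * Real.log n := by
        nth_rewrite 3 [← Real.rpow_one (Real.log n)]
        rw [← Real.rpow_add hl]
        norm_num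
      rw [this]
      ring
    refine h2.trans_isLittleO ?_
    have h3 : Tendsto (fun n : ℕ => Real.log n ^ (-(1 / 4) : ℝ)) atTop (𝓝 0) :=
      (tendsto_rpow_neg_atTop (by norm_num : (0 : ℝ) < 1 / 4)).comp hlog
    have h4 : (fun n : ℕ => Real.log n ^ (-(1 / 4) : ℝ)) =o[atTop] (fun _ : ℕ => (1 : ℝ)) := by
      rw [isLittleO_one_iff]
      exact h3
    have h5 := h4.mul_isBigO (isBigO_refl (fun n : ℕ => Real.log n / (n : ℝ)) atTop)
    simpa using h5
  · -- probability tends to 1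
    have hs : Tendsto (fun n : ℕ => Real.log n ^ (1 / 2 : ℝ) / 256) atTop atTop :=
      ((tendsto_rpow_atTop (by norm_num : (0 : ℝ) < 1 / 2)).comp hlog).atTop_div_const (by norm_num)
    have hf : Tendsto (fun s : ℝ => 2 * ((256 * s) ^ 2 + 1) * Real.exp (-s)) atTop (𝓝 0) := by
      have e2 := Real.tendsto_pow_mul_exp_neg_atTop_nhds_zero 2
      have e0 := Real.tendsto_pow_mul_exp_neg_atTop_nhds_zero 0
      have := (e2.const_mul (2 * 256 ^ 2)).add (e0.const_mul 2)
      simp only [mul_zero, add_zero] at this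
      refine this.congr ?_
      intro s
      ring
    have hf2 := hf.comp hs
    have hf3 : Tendsto (fun n : ℕ => 1 - 2 * (Real.log n + 1) *
        Real.exp (-(Real.log n ^ (1 / 2 : ℝ) / 256))) atTop (𝓝 1) := by
      have h5 : Tendsto (fun n : ℕ => 2 * (Real.log n + 1) *
          Real.exp (-(Real.log n ^ (1 / 2 : ℝ) / 256))) atTop (𝓝 0) := by
        refine hf2.congr' ?_
        filter_upwards [hev] with n hn
        have hl : 0 < Real.log n := by linarith
        simp only [Function.comp]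
        have : (256 * (Real.log n ^ (1 / 2 : ℝ) / 256)) ^ 2 = Real.log n := by
          rw [mul_div_cancel₀ _ (by norm_num), ← Real.rpow_natCast, ← Real.rpow_mul hl.le]
          norm_num
        rw [this]
      have := h5.const_sub 1
      simpa using this
    have hf4 : Tendsto (fun n : ℕ => ENNReal.ofReal (1 - 2 * (Real.log n + 1) *
        Real.exp (-(Real.log n ^ (1 / 2 : ℝ) / 256)))) atTop (𝓝 1) := by
      have := ENNReal.tendsto_ofReal hf3
      simpa using this
    refine tendsto_of_tendsto_of_tendsto_of_le_of_le' hf4 tendsto_const_nhds ?_ ?_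
    · filter_upwards [hev] with n hn
      exact (hgood n hn).2.2
    · filter_upwards with n
      have := (hdep n).prob
      exact prob_le_one

/-- The negated form of Q1 holds, with `lim = 1` in place of `limsup > 0`; hence the statement of Q1
is false. -/
theorem result :
    (∃ (d : ℕ → ℕ) (p : ℕ → ℝ) (μ : ∀ n : ℕ, Measure (SimpleGraph (Fin n))),
      (fun n => (d n : ℝ)) =O[atTop] (fun n : ℕ => (n : ℝ) / Real.log n) ∧
      p =o[atTop] (fun n : ℕ => Real.log n / (n : ℝ)) ∧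
      (∀ n, 0 ≤ p n ∧ p n ≤ 1) ∧
      (∀ n, IsDDependent n (d n) (p n) (μ n)) ∧
      Tendsto (fun n => μ n {G | G.Connected}) atTop (𝓝 1)) ∧
    ¬ (∀ (d : ℕ → ℕ) (p : ℕ → ℝ) (μ : ∀ n : ℕ, Measure (SimpleGraph (Fin n))),
      (fun n => (d n : ℝ)) =O[atTop] (fun n : ℕ => (n : ℝ) / Real.log n) →
      p =o[atTop] (fun n : ℕ => Real.log n / (n : ℝ)) →
      (∀ n, 0 ≤ p n ∧ p n ≤ 1) →
      (∀ n, IsDDependent n (d n) (p n) (μ n)) →
      Tendsto (fun n => μ n {G | G.Connected}) atTop (𝓝 0)) := by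
  refine ⟨main, ?_⟩
  intro hall
  obtain ⟨d, p, μ, hd, hp, h01, hdep, hlim⟩ := main
  have h := tendsto_nhds_unique hlim (hall d p μ hd hp h01 hdep)
  exact one_ne_zero h

end Pool.Agent.Results.MP_b3d828_pr.ConnectedBelowLog
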